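import Mathlib
import Pool.Agent.Helper28.HN.Cfg
import Pool.Agent.Helper94.HN.Nat

/-!
# Project HN: naturality in the shapes of `Pieces`, and `map_qa`, `map_psP`, `map_Eqn`, `map_Pp`,
`map_gG`, `map_ch`
-/

namespace Pool.Agent.Helper80.HN

open MvPolynomial Pool.Agent.Helper28.HN

section nat

variable {m : ℕ} {S S' : Type*} [CommRing S] [CommRing S'] (f : S →+* S') (c : Ix m → S)
  (x y x' y' ξ : I m → S) (u : Fin (m + 1) → S) (z : S) (k : Un m → S)

theorem map_lf (r : Fin m) : f (lf c r x y) = lf (fun e => f (c e)) r (fun i => f (x i))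
    (fun i => f (y i)) := Helper94.HN.map_lf f c r x y

theorem map_qf : f (qf c x x' y y') = qf (fun e => f (c e)) (fun i => f (x i)) (fun i => f (x' i))
    (fun i => f (y i)) (fun i => f (y' i)) := Helper94.HN.map_qf f c x x' y y'

theorem map_aff (i : I m) : f (aff u i) = aff (fun i => f (u i)) i :=
  congrFun (Helper94.HN.map_aff f u) i

theorem map_detM : f (Mx c x).det = (Mx (fun e => f (c e)) (fun i => f (x i))).det := by
  rw [RingHom.map_det, Helper94.HN.map_Mx]

theorem map_detN : f (Nx c y).det = (Nx (fun e => f (c e)) (fun i => f (y i))).det := by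
  rw [RingHom.map_det, Helper94.HN.map_Nx]

theorem map_Y0 (i : I m) : f (Y0 c x i) = Y0 (fun e => f (c e)) (fun i => f (x i)) i :=
  congrFun (Helper94.HN.map_Y0 f c x) i

theorem map_Y1 (i : I m) : f (Y1 c x i) = Y1 (fun e => f (c e)) (fun i => f (x i)) i :=
  congrFun (Helper94.HN.map_Y1 f c x) i

theorem map_yh (i : I m) : f (yh c x z i) = yh (fun e => f (c e)) (fun i => f (x i)) (f z) i :=
  congrFun (Helper94.HN.map_yh f c x z) i

theorem map_vh (i : Fin (m + 1)) : f (vh c y i) = vh (fun e => f (c e)) (fun i => f (y i)) i :=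
  congrFun (Helper94.HN.map_vh f c y) i

theorem map_xh (i : I m) : f (xh c y i) = xh (fun e => f (c e)) (fun i => f (y i)) i :=
  congrFun (Helper94.HN.map_xh f c y) i

theorem map_nx (i : I m) : f (nx c x y i) = nx (fun e => f (c e)) (fun i => f (x i))
    (fun i => f (y i)) i := congrFun (Helper94.HN.map_nx f c x y) i

theorem map_ny (i : I m) : f (ny c x y i) = ny (fun e => f (c e)) (fun i => f (x i))
    (fun i => f (y i)) i := congrFun (Helper94.HN.map_ny f c x y) i

theorem map_Fh : f (Fh c x z) = Fh (fun e => f (c e)) (fun i => f (x i)) (f z) :=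
  Helper94.HN.map_Fh f c x z

theorem map_Ah : f (Ah c x) = Ah (fun e => f (c e)) (fun i => f (x i)) :=
  Helper94.HN.map_Ah f c x

theorem map_Bh : f (Bh c x) = Bh (fun e => f (c e)) (fun i => f (x i)) :=
  Helper94.HN.map_Bh f c x

theorem map_Ch : f (Ch c x) = Ch (fun e => f (c e)) (fun i => f (x i)) :=
  Helper94.HN.map_Ch f c x

theorem map_psh : f (psh c x z) = psh (fun e => f (c e)) (fun i => f (x i)) (f z) :=
  Helper94.HN.map_psh f c x z

theorem map_kah : f (kah c x z) = kah (fun e => f (c e)) (fun i => f (x i)) (f z) :=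
  Helper94.HN.map_kah f c x z

theorem map_qh : f (qh c x ξ z) = qh (fun e => f (c e)) (fun i => f (x i)) (fun i => f (ξ i)) (f z) :=
  Helper94.HN.map_qh f c x ξ z

theorem map_qa : f (qa c x ξ) = qa (fun e => f (c e)) (fun i => f (x i)) (fun i => f (ξ i)) := by
  have h : (fun i => f ((Fin.cons 0 (Fin.cons 0 (- ((Mx c x).adjugate.mulVec
      fun r => lf c r ξ (Y1 c x)))) : I m → S) i)) =
      Fin.cons 0 (Fin.cons 0 (- ((Mx (fun e => f (c e)) (fun i => f (x i))).adjugate.mulVec
        fun r => lf (fun e => f (c e)) r (fun i => f (ξ i))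
          (Y1 (fun e => f (c e)) (fun i => f (x i)))))) := by
    funext i
    refine Fin.cases ?_ (fun i => Fin.cases ?_ (fun i => ?_) i) i
    · simp only [Fin.cons_zero, map_zero]
    · simp only [Fin.cons_zero, Fin.cons_succ, map_zero]
    · simp only [Fin.cons_succ, Pi.neg_apply, map_neg, Helper94.HN.map_mulVec', RingHom.map_adjugate,
        Helper94.HN.map_Mx, Helper94.HN.map_lf, Helper94.HN.map_Y1]
  simp only [qa, map_mul, map_add, Helper94.HN.map_qf, Helper94.HN.map_Y1, map_ofNat, RingHom.map_det,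
    Helper94.HN.map_Mx, h]

theorem map_xz (i : I m) : f (xz c u z i) = xz (fun e => f (c e)) (fun i => f (u i)) (f z) i :=
  congrFun (Helper94.HN.map_xz f c u z) i

theorem map_psP : (psP c x).map f = psP (fun e => f (c e)) (fun i => f (x i)) :=
  Helper94.HN.psP_map f c x

theorem map_Eqn (i : En m) : f (Eqn c k i) = Eqn (fun e => f (c e)) (fun a => f (k a)) i := by
  rcases i with a | i | i
  · simp only [Eqn, Helper94.HN.map_psh, Helper94.HN.map_aff]
  · fin_cases i
    · simp only [Eqn, Helper94.HN.map_kah, Helper94.HN.map_aff]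
    · simp only [Eqn, Helper94.HN.map_Fh, Helper94.HN.map_aff]
    · simp only [Eqn, Helper94.HN.map_Ah, Helper94.HN.map_aff]
    · simp only [Eqn, Helper94.HN.map_Bh, Helper94.HN.map_aff]
    · simp only [Eqn, Helper94.HN.map_qh, Helper94.HN.map_aff, Helper94.HN.map_xz]
  · rfl

theorem map_Vm : f (Vm c k).det = (Vm (fun e => f (c e)) (fun a => f (k a))).det := by
  rw [RingHom.map_det]
  congr 1
  ext a i
  have h : ∀ y : I m → S, f (vh c y i) = vh (fun e => f (c e)) (fun i => f (y i)) i :=
    fun y => congrFun (Helper94.HN.map_vh f c y) i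
  simp only [RingHom.mapMatrix_apply, Matrix.map_apply, Vm, h, Helper94.HN.map_yh,
    Helper94.HN.map_aff]

theorem map_Pp : f (Pp c k) = Pp (fun e => f (c e)) (fun a => f (k a)) := by
  have h1 : ∀ z : S, f ((psP c (aff fun i => k (.inl i))).derivative.eval z) =
      (psP (fun e => f (c e)) (aff fun i => f (k (.inl i)))).derivative.eval (f z) := by
    intro z
    rw [← Polynomial.eval_map_apply, ← Polynomial.derivative_map, Helper94.HN.psP_map,
      Helper94.HN.map_aff]
  simp only [Pp, map_mul, map_prod, apply_ite f, map_one, map_sub, RingHom.map_det,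
    Helper94.HN.map_Mx, Helper94.HN.map_Nx, Helper94.HN.map_aff, Helper94.HN.map_yh,
    Helper94.HN.map_kah, Helper94.HN.map_qh, Helper94.HN.map_xz, h1]
  congr 1
  rw [← RingHom.map_det]
  exact map_Vm f c k

theorem map_cr (A : Fin m → I m → S) (ζ : I m → S) (i : I m) :
    f (cr A ζ i) = cr (fun r j => f (A r j)) (fun j => f (ζ j)) i := by
  simp only [cr]
  rw [RingHom.map_det]
  congr 1
  ext a b
  refine Fin.cases ?_ (fun a => Fin.cases ?_ (fun a => ?_) a) a
  · simp only [RingHom.mapMatrix_apply, Matrix.map_apply, Matrix.of_apply, Fin.cons_zero]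
    exact congrFun (Helper94.HN.map_single f i) b
  · simp only [RingHom.mapMatrix_apply, Matrix.map_apply, Matrix.of_apply, Fin.cons_zero,
      Fin.cons_succ]
  · simp only [RingHom.mapMatrix_apply, Matrix.map_apply, Matrix.of_apply, Fin.cons_succ]

theorem map_rw' (r : Fin m) (i : I m) :
    f (rw' c y r i) = rw' (fun e => f (c e)) (fun i => f (y i)) r i := by
  simp only [rw', map_sum, map_mul]

theorem map_gG (p : I m × I m) : f (gG c y p) = gG (fun e => f (c e)) (fun i => f (y i)) p := by
  have h1 : ∀ j : I m, (fun i => f (cr (rw' c y) (Pi.single j 1) i)) =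
      cr (rw' (fun e => f (c e)) (fun i => f (y i))) (Pi.single j 1) := by
    intro j
    funext i
    rw [map_cr, Helper94.HN.map_single]
    congr 1
    funext r i
    exact map_rw' f c y r i
  simp only [gG, map_mul, map_ofNat, Helper94.HN.map_qf, h1]

theorem map_ch' (y1 : I m → S) (N : ℕ) :
    ((fun i => ((ch c x ξ y1 N).1 i).map f) = (ch (fun e => f (c e)) (fun i => f (x i))
      (fun i => f (ξ i)) (fun i => f (y1 i)) N).1) ∧
    ((fun i => ((ch c x ξ y1 N).2 i).map f) = (ch (fun e => f (c e)) (fun i => f (x i))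
      (fun i => f (ξ i)) (fun i => f (y1 i)) N).2) := by
  have hC : (fun e => Polynomial.mapRingHom f (Polynomial.C (c e))) =
      (fun e => Polynomial.C (f (c e))) := by
    funext e
    exact Polynomial.map_C f
  induction N with
  | zero =>
    constructor
    · funext i
      simp only [ch, Polynomial.map_add, Polynomial.map_mul, Polynomial.map_C, Polynomial.map_X]
    · funext i
      simp only [ch, Polynomial.map_C]
  | succ N ih =>
    obtain ⟨ih1, ih2⟩ := ih
    by_cases hN : N % 2 = 0
    · simp only [ch, if_pos hN]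
      refine ⟨ih1, ?_⟩
      have h := Helper94.HN.map_ny (Polynomial.mapRingHom f) (fun e => Polynomial.C (c e))
        (ch c x ξ y1 N).1 (ch c x ξ y1 N).2
      rw [hC] at h
      simp only [Polynomial.coe_mapRingHom] at h
      rw [ih1, ih2] at h
      exact h
    · simp only [ch, if_neg hN]
      refine ⟨?_, ih2⟩
      have h := Helper94.HN.map_nx (Polynomial.mapRingHom f) (fun e => Polynomial.C (c e))
        (ch c x ξ y1 N).1 (ch c x ξ y1 N).2
      rw [hC] at h
      simp only [Polynomial.coe_mapRingHom] at h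
      rw [ih1, ih2] at h
      exact h

theorem map_ch (y1 : I m → S) (N : ℕ) (i : I m) :
    (((ch c x ξ y1 N).1 i).map f = (ch (fun e => f (c e)) (fun i => f (x i)) (fun i => f (ξ i))
      (fun i => f (y1 i)) N).1 i) ∧
    (((ch c x ξ y1 N).2 i).map f = (ch (fun e => f (c e)) (fun i => f (x i)) (fun i => f (ξ i))
      (fun i => f (y1 i)) N).2 i) :=
  ⟨congrFun (map_ch' f c x ξ y1 N).1 i, congrFun (map_ch' f c x ξ y1 N).2 i⟩

end nat

end Pool.Agent.Helper80.HN
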